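import Pool.Agent.Helper42.SG.GoalsC
import Pool.Agent.Helper77.SGC.Goals

/-!
# Project SG (MP_a41896_nt), part 1: the auxiliary function (AUX), split (helper76)

Notation of `Pool/Agent/Helper42/SG/Defs.lean`; `Arr`, `sh`, `N0`, `Forb`, `HOUS`, `MON` are those of
`Pool/Agent/Helper77/SGC/Goals.lean` (with `M = n`): `N0 n e = 2 * 4^e * n + 4^e`,
`sh G l μ j g i m` is the coefficient of `η^μ X^j X_0^g` in `X^i (L_1)^(n-m) (L_2)^m`.
Every goal is independent (the other goals are hypotheses).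
-/

set_option autoImplicit false

open MvPolynomial

namespace Pool.Agent.Helper76.SGC

open WeierstrassCurve Height
open Pool.Agent.Helper29.BL Pool.Agent.Helper92.Ru Pool.Agent.Helper42.SG
open Pool.Agent.Helper77.SGC (Arr sh N0 Forb HOUS MON)

noncomputable section

/-- the indices of the variable `h`: `(l_h, m_h)`; `Idx n n n e = (∀ h, Ax n e h) × (Fin 2 → Fin n)` -/
abbrev Ax (n : ℕ) (e : ℕ → ℕ) (h : Fin (2 * n)) : Type := Fin (4 ^ e (h.val / 2)) × Fin (n + 1)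

/-- the variables `2j`, `2j+1` of the block `j` -/
def hz {n : ℕ} (j : Fin n) : Fin (2 * n) := ⟨2 * j.val, by omega⟩

def ho {n : ℕ} (j : Fin n) : Fin (2 * n) := ⟨2 * j.val + 1, by omega⟩

/-- the arrays of all the variables -/
def ArrV {K : Type} [Field K] (W : ℕ → Affine K) (B : ℕ → AbsoluteValue K ℝ → ℝ) (D : ℕ → ℕ)
    (n : ℕ) (e : ℕ → ℕ) (G : ℕ → Bool → ℕ → Fin 2 → ℕ → ℕ → K) : Prop :=
  ∀ h < 2 * n, Arr (W (h % 2)) (B (h % 2)) (D (h % 2)) (e (h / 2)) n (G h)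

/-- the coefficient of `η^μ X^j X_0^g` in `X^i (L_1)^(n-m) (L_2)^m X_0^β` -/
def sg {K : Type} [Field K] (G : Bool → ℕ → Fin 2 → ℕ → ℕ → K) (l : Bool) (μ : Fin 2)
    (j g i m β : ℕ) : K := if β ≤ g then sh G l μ j (g - β) i m else 0

/-- the conditions on `c` -/
def CondA {K : Type} [Field K] (n k0 : ℕ) (e : ℕ → ℕ)
    (G : ℕ → Bool → ℕ → Fin 2 → ℕ → ℕ → K) (c : Idx n n n e → K) : Prop :=
  ∀ (j : Fin n) (α0 : ∀ h, Ax n e h) (l l' : Bool) (μ μ' : Fin 2) (i i' : ℕ),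
    Forb n k0 (e j.val) μ μ' i i' → ∀ g < 3 * n, ∀ g' < 3 * n,
    ∑ x : Ax n e (hz j), ∑ x' : Ax n e (ho j), ∑ β : Fin 2 → Fin n,
      c (Function.update (Function.update α0 (hz j) x) (ho j) x', β) *
        (sg (G (2 * j.val)) l μ i g x.1.val x.2.val (β 0).val *
          sg (G (2 * j.val + 1)) l' μ' i' g' x'.1.val x'.2.val (β 1).val) = 0

/-- the coefficient of `∏_h (Ψ_h Ψ_0h)^(μ_h) X_h^(i_h)` in `P^λ`, a polynomial in `X_(2n), X_(2n+1)` -/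
def Br {K A : Type} [Field K] [CommRing A] [Algebra K A] (n : ℕ) (e : ℕ → ℕ)
    (G : ℕ → Bool → ℕ → Fin 2 → ℕ → ℕ → K) (c : Idx n n n e → K) (lam : ℕ → Bool) (X : ℕ → A)
    (μ : Fin (2 * n) → Fin 2) (i : Fin (2 * n) → ℕ) : A :=
  ∑ α : Idx n n n e, algebraMap K A (c α) *
    (∏ h : Fin (2 * n), ∑ g ∈ Finset.range (2 * n + 1),
      algebraMap K A (sh (G h.val) (lam h.val) (μ h) (i h) g (α.1 h).1.val (α.1 h).2.val) *
        X (2 * n + h.val % 2) ^ g) *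
    ∏ t : Fin 2, X (2 * n + t.val) ^ (α.2 t).val

/-! ## Goals -/

/-- **SPL** (splitting a sum over a product).
PROOF. The map `(α0, x, x') ↦ update (update α0 i0 x) i1 x'` from
`{α0 | α0 i0 = d0 ∧ α0 i1 = d1} × A i0 × A i1` to `∀ i, A i` is a bijection (inverse
`α ↦ (update (update α i0 d0) i1 d1, α i0, α i1)`; `i0 ≠ i1`). -/
def SPL : Prop :=
  ∀ (ι : Type) [Fintype ι] [DecidableEq ι] (A : ι → Type) [∀ i, Fintype (A i)]
    [∀ i, DecidableEq (A i)] (i0 i1 : ι), i0 ≠ i1 → ∀ (d0 : A i0) (d1 : A i1) (R : Type)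
    [AddCommMonoid R] (f : (∀ i, A i) → R),
    ∑ α, f α = ∑ α0 : {α0 : ∀ i, A i // α0 i0 = d0 ∧ α0 i1 = d1}, ∑ x : A i0, ∑ x' : A i1,
      f (Function.update (Function.update α0.1 i0 x) i1 x')

/-- the rows of the Siegel system: `(j, α0, l, l', μ, μ', p, p', g, g')` -/
abbrev Rows (n k0 : ℕ) (e : ℕ → ℕ) : Type :=
  Σ j : Fin n, {α0 : ∀ h, Ax n e h // (α0 (hz j)).1.val = 0 ∧ (α0 (hz j)).2.val = 0 ∧
      (α0 (ho j)).1.val = 0 ∧ (α0 (ho j)).2.val = 0} ×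
    (Bool × Bool × Fin 2 × Fin 2 × Fin (k0 * 4 ^ e j.val) × Fin (k0 * 4 ^ e j.val) ×
      Fin (3 * n) × Fin (3 * n))

/-- **CARDA** (the count).
PROOF. `q_j = 4 ^ e j`, `N = #Idx = (∏_h 4^(e (h/2)) (n+1)) n^2`. The set of the `α0` has
`∏_(h ≠ 2j, 2j+1) 4^(e (h/2)) (n+1) = N / (q_j^2 (n+1)^2 n^2)` elements (bijection
`(α0, x, x') ↦ update ..` as in SPL, or `#{α0} * #A(2j) * #A(2j+1) = #(∀ h, A h)` from SPL with `f = 1`). So the number of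
rows is `∑_j N / (q_j^2 (n+1)^2 n^2) * 16 (k0 q_j)^2 (3n)^2 = 144 k0^2 n / (n+1)^2 * N ≤ N/2`, because
`288 k0^2 ≤ n`. -/
def CARDA : Prop :=
  ∀ (n k0 : ℕ) (e : ℕ → ℕ), 288 * (k0 + 2) ^ 2 ≤ n →
    2 * Fintype.card (Rows n k0 e) ≤ Fintype.card (Idx n n n e)

/-- **SIEA** (the conditions can be solved). Hypotheses allowed: CARDA, HOUS.
PROOF. `Pool.Agent.Helper68.Ru.siegel` (`Helper68/Ru/Siegel.lean`) with rows `Rows n k0 e` and unknowns `Idx n n n e`. The row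
`(j, α0, l, l', μ, μ', p, p', g, g')` stands for `i = N0 - 2μ - p`, `i' = N0 - 2μ' - p'` (`N0 = N0 n (e j)`, natural
subtraction): its entry at the unknown `(α, β)` is
`E sg (G (2j)) l μ i g (α_2j) β_0 * sg (G (2j+1)) l' μ' i' g' (α_(2j+1)) β_1` if `α = α0` outside `2j, 2j+1`, and `0` otherwise;
`E = (D 0 * D 1)^(n q_j)`. Entries are integral (`Arr.int`; `2j % 2 = 0`, `(2j+1) % 2 = 1`, `/ 2 = j`) of local absolute value
`≤ (D 0 D 1 (B 0 v) (B 1 v))^(n q_j)` (`v (D : K) ≤ D`), so of house `≤ b0^(n q_j) ≤ b0^(n sq n e) =: A` (HOUS). The house of the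
solution is `≤ c1 (c1 N A) ≤ exp (C sq n e)` (`N = (∏_h 4^(e (h/2)) (n+1)) n^2`, `4^e ≤ exp (2 * 4^e)`, so
`N ≤ exp (C' sq n e)`; `sq n e ≥ n ≥ 1`). The row `(j, α0, ..)` of the system is the condition for `α0`, divided by `E ≠ 0`
(SPL-type computation: the sum over `Idx` reduces to the `α` which agree with `α0` outside the block); every `α0'`
in `CondA` may be replaced by the one with `α0 (hz j) = α0 (ho j) = (0, 0)` (the two updates overwrite these values), and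
`Forb` means `i = N0 - 2μ - p`, `i' = N0 - 2μ' - p'` with `p + p' < k0 q_j`. -/
def SIEA : Prop :=
  ∀ (K : Type) [Field K] [NumberField K] (W : ℕ → Affine K) (B : ℕ → AbsoluteValue K ℝ → ℝ)
    (D : ℕ → ℕ), (∀ i v, 1 ≤ B i v) → (∀ i, 0 < D i) → ∀ n k0 : ℕ, 288 * (k0 + 2) ^ 2 ≤ n →
    ∃ C : ℝ, 0 ≤ C ∧ ∀ (e : ℕ → ℕ) (G : ℕ → Bool → ℕ → Fin 2 → ℕ → ℕ → K),
      ArrV W B D n e G → ∃ c : Idx n n n e → K, c ≠ 0 ∧ (∀ α, IsIntegral ℤ (c α)) ∧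
        (∀ α, NumberField.house (c α) ≤ Real.exp (C * sq n e)) ∧ CondA n k0 e G c

/-- **EXPA** (expansion of `P^λ`). No hypotheses.
PROOF. For every `h < 2n` (`q = 4^(e (h/2))`, `l = l_h < q`, `m = m_h ≤ n`; `Arr.law` with `x = X h`, `c = X (2n + h%2)`,
`η = Ψ h * Ψ (2n + h%2)`, `η^2 = Bf Bf` by `OnW`, note `(2n + h%2) % 2 = h % 2`):
`X_h^l (L_1)^(n-m) (L_2)^m = ∑_(μ, i' ≤ 2qn, g) G(μ,i',g) η^μ X_h^(l+i') X_0^g = ∑_(μ : Fin 2) ∑_(i ≤ N0) η^μ X_h^i ∑_g sh(μ,i,g;l,m) X_0^g`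
(`i = l + i'`; `sh = 0` for `i < l`, and for `i - l > 2qn` by `Arr.deg`). Insert this into `Paux` and expand the product over `h`
(`Finset.prod_univ_sum`, twice), exchange the sum over `α` with the sums over `μ`, `i`. -/
def EXPA : Prop :=
  ∀ (K : Type) [Field K] (W : ℕ → Affine K) (B : ℕ → AbsoluteValue K ℝ → ℝ) (D : ℕ → ℕ)
    (n : ℕ) (e : ℕ → ℕ) (G : ℕ → Bool → ℕ → Fin 2 → ℕ → ℕ → K), ArrV W B D n e G →
    ∀ (c : Idx n n n e → K) (A : Type) [CommRing A] [Algebra K A] (X Ψ : ℕ → A),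
      OnW W n X Ψ → ∀ lam : ℕ → Bool,
      Paux (mapW A W) n n n e (fun α => algebraMap K A (c α)) lam X Ψ =
        ∑ μ : Fin (2 * n) → Fin 2,
          ∑ i ∈ Fintype.piFinset (fun h : Fin (2 * n) => Finset.range (N0 n (e (h.val / 2)) + 1)),
            (∏ h : Fin (2 * n), ((Ψ h.val * Ψ (2 * n + h.val % 2)) ^ (μ h).val *
              X h.val ^ (i h))) * Br n e G c lam X μ i

/-- **VANA** (a forbidden pair kills the bracket). Hypothesis allowed: SPL.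
PROOF. Let `h0 = 2j`, `h1 = 2j + 1`. Exchange the sums over `α.1` and `β = α.2` and apply SPL to the sum over `α.1` (`d0 = d1 = (0, 0)`): the
factors of the `h ≠ h0, h1` depend on `α0` only (`update` does not change them), so
`Br = ∑_(α0) (∏_(h ≠ h0, h1) ..) * I(α0)`,
`I(α0) = ∑_(x, x', β) c(update .., β) (∑_(g ≤ 2n) sh(G h0) X_(2n)^g) X_(2n)^(β_0) (∑_(g' ≤ 2n) sh(G h1) X_(2n+1)^(g')) X_(2n+1)^(β_1)`
(`h0 % 2 = 0`, `h1 % 2 = 1`). `(∑_(g ≤ 2n) sh(g) X^g) X^β = ∑_(g < 3n) sg(g; β) X^g`: `g + β < 3n`, and for `g < 3n` with `g - β > 2n` the coefficient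
`sh` is `0` by `Arr.deg`. So `I(α0) = ∑_(g, g' < 3n) [the left side of CondA] X_(2n)^g X_(2n+1)^(g') = 0`
(`l = lam (2j)`, `l' = lam (2j+1)`). -/
def VANA : Prop :=
  ∀ (K : Type) [Field K] (W : ℕ → Affine K) (B : ℕ → AbsoluteValue K ℝ → ℝ) (D : ℕ → ℕ)
    (n k0 : ℕ) (e : ℕ → ℕ) (G : ℕ → Bool → ℕ → Fin 2 → ℕ → ℕ → K), ArrV W B D n e G →
    ∀ (c : Idx n n n e → K), CondA n k0 e G c →
    ∀ (A : Type) [CommRing A] [Algebra K A] (lam : ℕ → Bool) (X : ℕ → A)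
      (μ : Fin (2 * n) → Fin 2) (i : Fin (2 * n) → ℕ) (j : Fin n),
      Forb n k0 (e j.val) (μ (hz j)) (μ (ho j)) (i (hz j)) (i (ho j)) →
      Br n e G c lam X μ i = 0

/-- **NFB** (norm frames: basic rules).
PROOF. `N 0 0`, `N 1 1` from `const` (`v 0 = 0`, `v 1 = 1`); powers and products by induction; sums by induction, with
`add` (archimedean: `cst v k = k`) or `max` (nonarchimedean: `cst v k = 1`), and `mono`. -/
def NFB : Prop :=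
  ∀ (K : Type) [Field K] (v : AbsoluteValue K ℝ) (A : Type) [CommRing A] [Algebra K A]
    (N : A → ℝ → Prop), NFr v N →
    N 0 0 ∧ N 1 1 ∧ (∀ f T, N f T → ∀ k : ℕ, N (f ^ k) (T ^ k)) ∧
    (∀ (ι : Type) (S : Finset ι) (f : ι → A) (T : ι → ℝ), (∀ x ∈ S, N (f x) (T x)) →
      N (∏ x ∈ S, f x) (∏ x ∈ S, T x)) ∧
    (∀ (ι : Type) (S : Finset ι) (f : ι → A) (T : ℝ), 0 ≤ T → (∀ x ∈ S, N (f x) T) →
      N (∑ x ∈ S, f x) (cst v (S.card : ℝ) * T))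

/-- **BRN** (norm of the bracket). Hypothesis allowed: NFB.
PROOF. For every `h` the sum over `g` has norm `≤ cst v (2n+1) * (B (h%2) v)^(4^(e (h/2)) n) * a_0h^(2n - 2μ_h)` (`a_0h = a (2n + h%2) ≥ 1`,
`Arr.bd`; if `sh ≠ 0` then `g + 2 μ_h ≤ 2n` by `Arr.deg`, otherwise the term is `0`). The product over `h`, `c_α` (`≤ s`), and
`∏_t X^(β_t)`, `β_t < n`, norm `≤ (a (2n) a (2n+1))^n`. Then the sum over `α`: `cst v (#Idx)`.  (`cst v` of a product of numbers `≥ 1`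
is the product of the `cst v`; `0 ≤ s` because `v (c α) ≤ s` for some `α`, and if `Idx` is empty the sum is `0`.) -/
def BRN : Prop :=
  ∀ (K : Type) [Field K] (W : ℕ → Affine K) (B : ℕ → AbsoluteValue K ℝ → ℝ) (D : ℕ → ℕ)
    (n : ℕ) (e : ℕ → ℕ) (G : ℕ → Bool → ℕ → Fin 2 → ℕ → ℕ → K), ArrV W B D n e G →
    (∀ i v, 1 ≤ B i v) → 1 ≤ n →
    ∀ (c : Idx n n n e → K) (v : AbsoluteValue K ℝ) (A : Type) [CommRing A] [Algebra K A]
      (N : A → ℝ → Prop), NFr v N → ∀ (X : ℕ → A) (a : ℕ → ℝ) (s : ℝ),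
      (∀ h < 2 * n + 2, 1 ≤ a h) → (∀ h < 2 * n + 2, N (X h) (a h)) → (∀ α, v (c α) ≤ s) →
      ∀ (lam : ℕ → Bool) (μ : Fin (2 * n) → Fin 2) (i : Fin (2 * n) → ℕ),
      N (Br n e G c lam X μ i)
        (cst v ((Fintype.card (Idx n n n e) : ℝ) * (2 * n + 1) ^ (2 * n)) * s *
          (∏ h : Fin (2 * n), (B (h.val % 2) v) ^ (4 ^ e (h.val / 2) * n)) *
          ((∏ h : Fin (2 * n), a (2 * n + h.val % 2) ^ (2 * n - 2 * (μ h).val)) *
            (a (2 * n) * a (2 * n + 1)) ^ n))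

/-- **PRN** (inequality between real numbers). Hypothesis allowed: MON.
PROOF. `∏_h (b a_h² b a_0h²)^(μ_h) a_h^(i_h) a_0h^(2n - 2μ_h) = ∏_h b^(2μ_h) a_h^(i_h + 2μ_h) a_0h^(2n) ≤ b^(4n) ∏_h a_h^(i_h + 2μ_h) a_0h^(2n)`. Write the product
over `h : Fin (2n)` as a product over `j < n` of the factors `2j`, `2j+1` (`Finset.prod_range_succ`-induction, or
`Fin.prod_univ_eq_prod_range` and induction on `n`): `a_(2j)^x a_(2j+1)^(x') ≤ (a_(2j) a_(2j+1))^(N0) / min^(k0 q_j)` by MON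
(`x = i_(2j) + 2μ_(2j)`, `x' = ..`, not forbidden: `x + x' + k0 q_j ≤ 2 N0`), `N0 n (e j) = 2 * 4^(e j) * n + 4^(e j)`; the factors
`a_(2n)^(2n) a_(2n+1)^(2n)` are those of `keyB`. -/
def PRN : Prop :=
  ∀ (n k0 : ℕ) (e : ℕ → ℕ) (a : ℕ → ℝ) (b : ℝ) (μ : Fin (2 * n) → Fin 2)
    (i : Fin (2 * n) → ℕ), 1 ≤ n → (∀ h < 2 * n + 2, 1 ≤ a h) → 1 ≤ b →
    (∀ h : Fin (2 * n), i h + 2 * (μ h).val ≤ N0 n (e (h.val / 2))) →
    (∀ j : Fin n, ¬ Forb n k0 (e j.val) (μ (hz j)) (μ (ho j)) (i (hz j)) (i (ho j))) →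
    (∏ h : Fin (2 * n), ((b * a h.val ^ 2 * (b * a (2 * n + h.val % 2) ^ 2)) ^ (μ h).val *
        a h.val ^ (i h))) *
      ((∏ h : Fin (2 * n), a (2 * n + h.val % 2) ^ (2 * n - 2 * (μ h).val)) *
        (a (2 * n) * a (2 * n + 1)) ^ n) ≤ b ^ (4 * n) * keyB n k0 e a

/-- **CNTA** (the number of terms).
PROOF. `N0 n e + 1 ≤ 4^e (2n + 2)`, `#Idx = (∏_h 4^(e (h/2)) (n+1)) n^2`; so the number is
`≤ 4^n n^2 (2n+1)^(2n) ((2n+2)(n+1))^(2n) ∏_h (4^(e (h/2)))^2`, and `∏_(h < 2n) (4^(e (h/2)))^2 = ∏_(j<n) (4^(e j))^4`,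
`(4^e)^4 = 256^e ≤ 256^(4^e)`. As `sq n e ≥ n ≥ 1`, `C = 256 * 4^n n^2 (2n+1)^(2n) ((2n+2)(n+1))^(2n)` works. -/
def CNTA : Prop :=
  ∀ n : ℕ, 1 ≤ n → ∃ C : ℝ, 1 ≤ C ∧ ∀ e : ℕ → ℕ,
    (Fintype.card (Fin (2 * n) → Fin 2) : ℝ) *
      ((Fintype.piFinset (fun h : Fin (2 * n) =>
        Finset.range (N0 n (e (h.val / 2)) + 1))).card : ℝ) *
      ((Fintype.card (Idx n n n e) : ℝ) * (2 * n + 1) ^ (2 * n)) ≤ C ^ sq n e

/-- **KEYA** (the key inequality). Hypotheses allowed: EXPA, VANA, NFB, BRN, PRN, CNTA.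
PROOF. EXPA: `P^λ = ∑_μ ∑_i (∏_h ..) Br`. Every term has norm
`≤ T0 := cst v (#Idx (2n+1)^(2n)) s ∏_h (B (h%2) v)^(4^(e (h/2)) n) b^(4n) keyB`: if `i_h + 2μ_h > N0` for some `h` then `Br = 0` (`sh ≠ 0` implies
`i - l + 2μ ≤ 2qn`, `l < q`, so `i + 2μ ≤ N0`: every product over `h` in `Br` has the factor `0`); if some pair is forbidden, `Br = 0` by VANA;
otherwise BRN, PRN and the norm rules for `∏_h (Ψ_h Ψ_0h)^(μ_h) X_h^(i_h)`. Sum with `cst v (#μ * #i)`, and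
`cst v (#μ * #i * #Idx * (2n+1)^(2n)) ≤ (cst v C)^(sq n e)` (CNTA), `∏_h (B (h%2) v)^(4^(e (h/2)) n) = (B 0 v * B 1 v)^(n sq n e)`. Take
`B' v = cst v C * (B 0 v * B 1 v)^n` (`PlC`: `FS_log_cst`, `FS.add`, `FS.const_mul` in `Pool/Agent/Helper29/BL/PS.lean`).
(`0 ≤ s` from `v (c α) ≤ s`: `Idx` is not empty since `n ≥ 1`.) -/
def KEYA : Prop :=
  ∀ (K : Type) [Field K] [NumberField K] (W : ℕ → Affine K) (B : ℕ → AbsoluteValue K ℝ → ℝ)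
    (D : ℕ → ℕ) (n k0 : ℕ), (∀ i, PlC (B i)) → 1 ≤ n →
    ∃ B' : AbsoluteValue K ℝ → ℝ, PlC B' ∧
      ∀ (e : ℕ → ℕ) (G : ℕ → Bool → ℕ → Fin 2 → ℕ → ℕ → K), ArrV W B D n e G →
      ∀ c : Idx n n n e → K, CondA n k0 e G c → KEY W n k0 e c B'

/-- **AUXA** (assembly).
PROOF. ECOEF for `W 0` and `W 1` gives `B i`, `D i` (`i = 0, 1`; put `B i = B 0`, `D i = D 0` for the other `i`, or use `i % 2`) and, for given `e`, the
arrays `G h` for `h < 2n` (curve `W (h % 2)`, exponent `e (h / 2)`, `M = n`; `choose` over `l`, `m`; `0` for `m > n`), so `ArrV W B D n e G`.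
SIEA and KEYA. -/
def AUXA : Prop := ECOEF → SIEA → KEYA → AUX

end

end Pool.Agent.Helper76.SGC
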